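import Pool.Agent.V5helper38.ID.Vor
import Pool.Agent.Q176.WL.A2

/-! The comparison in a closed ball with a barrier which moves with the maximal speed of the flow. -/

namespace Pool.Agent.V5helper38.ID

open Set Filter Topology

open Pool.Agent.Q176.WL (snd_nonneg left_nonpos)

variable {d : ℕ}

lemma slice {F : E d → ℝ} {z e : E d} {s : ℝ} (h : DifferentiableAt ℝ F (z + s • e)) :
    HasDerivAt (fun s => F (z + s • e)) (pd e F (z + s • e)) s := by
  have h1 : HasDerivAt (fun s : ℝ => z + s • e) e s := by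
    simpa using ((hasDerivAt_id s).smul_const e).const_add z
  exact h.hasFDerivAt.comp_hasDerivAt s h1

/-- moving in the direction `k` -/
def mv (x : Fin d → ℝ) (k : Fin d) (s : ℝ) : Fin d → ℝ := x + s • Pi.single k 1

lemma mv_zero (x : Fin d → ℝ) (k : Fin d) : mv x k 0 = x := by simp [mv]

lemma ek_mv (t : ℝ) (x : Fin d → ℝ) (k : Fin d) (s : ℝ) : ((t, x) : E d) + s • ek k = (t, mv x k s) := by
  simp [ek, mv]

lemma et_mv (t : ℝ) (x : Fin d → ℝ) (s : ℝ) : ((t, x) : E d) + s • et = (t + s, x) := by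
  simp [et]

lemma dq_mv (x c : Fin d → ℝ) (k : Fin d) (s : ℝ) :
    dq (mv x k s) c = dq x c + 2 * s * (x k - c k) + s ^ 2 := by
  unfold dq mv
  have h1 : ∀ l, ((x + s • Pi.single (M := fun _ => ℝ) k (1 : ℝ)) l - c l) ^ 2 =
      (x l - c l) ^ 2 + (if l = k then 2 * s * (x k - c k) + s ^ 2 else 0) := by
    intro l
    by_cases hl : l = k
    · subst hl
      simp
      ring
    · simp [hl]
  rw [Finset.sum_congr rfl fun l _ => h1 l, Finset.sum_add_distrib]
  simp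
  ring

lemma dq_cont (c : Fin d → ℝ) : Continuous (fun x => dq x c) := by
  unfold dq
  fun_prop

/-- the regularised distance to `c` -/
noncomputable def gg (c : Fin d → ℝ) (e : ℝ) (x : Fin d → ℝ) : ℝ := Real.sqrt (dq x c + e ^ 2)

variable {c : Fin d → ℝ} {e lam A R : ℝ} {M : ℝ → ℝ}

lemma dq_nonneg (x c : Fin d → ℝ) : 0 ≤ dq x c := Finset.sum_nonneg fun _ _ => sq_nonneg _

lemma gg_arg_pos (he : 0 < e) (x : Fin d → ℝ) : 0 < dq x c + e ^ 2 := by
  have := dq_nonneg x c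
  positivity

lemma gg_pos (he : 0 < e) (x : Fin d → ℝ) : 0 < gg c e x := Real.sqrt_pos.2 (gg_arg_pos he x)

lemma gg_sq (he : 0 < e) (x : Fin d → ℝ) : gg c e x ^ 2 = dq x c + e ^ 2 :=
  Real.sq_sqrt (gg_arg_pos he x).le

lemma gg_ge (_he : 0 < e) (x : Fin d → ℝ) : e ≤ gg c e x := by
  apply Real.le_sqrt_of_sq_le
  linarith [dq_nonneg x c]

lemma gg_cont : Continuous (gg c e) := by
  have := dq_cont c
  unfold gg
  fun_prop

lemma gg_s (he : 0 < e) (x : Fin d → ℝ) (k : Fin d) (s : ℝ) :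
    HasDerivAt (fun s => gg c e (mv x k s)) ((x k - c k + s) / gg c e (mv x k s)) s := by
  have h1 : HasDerivAt (fun s => dq (mv x k s) c + e ^ 2) (2 * (x k - c k + s)) s := by
    have h : HasDerivAt (fun s => dq x c + 2 * s * (x k - c k) + s ^ 2 + e ^ 2)
        (2 * (x k - c k) + 2 * s) s := by
      have h2 := ((((hasDerivAt_id s).const_mul 2).mul_const (x k - c k)).const_add (dq x c)).add
        ((hasDerivAt_id s).pow 2)
      refine (h2.add_const (e ^ 2)).congr_deriv ?_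
      simp
    simp only [dq_mv]
    refine h.congr_deriv ?_
    ring
  have h2 := h1.sqrt (gg_arg_pos he _).ne'
  refine h2.congr_deriv ?_
  have := gg_pos (c := c) he (mv x k s)
  unfold gg at this ⊢
  field_simp

lemma gg_ss (he : 0 < e) (x : Fin d → ℝ) (k : Fin d) (s : ℝ) :
    HasDerivAt (fun s => (x k - c k + s) / gg c e (mv x k s))
      (1 / gg c e (mv x k s) - (x k - c k + s) ^ 2 / gg c e (mv x k s) ^ 3) s := by
  have h1 : HasDerivAt (fun s => x k - c k + s) 1 s := (hasDerivAt_id s).const_add _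
  have h2 := h1.div (gg_s (c := c) he x k s) (gg_pos (c := c) he (mv x k s)).ne'
  refine h2.congr_deriv ?_
  have := gg_pos (c := c) he (mv x k s)
  field_simp

/-- the barrier -/
noncomputable def QQ (c : Fin d → ℝ) (e lam A R : ℝ) (M : ℝ → ℝ) (t : ℝ) (x : Fin d → ℝ) : ℝ :=
  Real.exp (lam * (gg c e x + M t - R) + A * t)

lemma QQ_pos (t : ℝ) (x : Fin d → ℝ) : 0 < QQ c e lam A R M t x := Real.exp_pos _

lemma QQ_t {t m : ℝ} {x : Fin d → ℝ} (hM : HasDerivAt M m t) :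
    HasDerivAt (fun t => QQ c e lam A R M t x) ((lam * m + A) * QQ c e lam A R M t x) t := by
  have h1 : HasDerivAt (fun t => lam * (gg c e x + M t - R) + A * t) (lam * m + A) t := by
    have := (((hM.const_add (gg c e x)).sub_const R).const_mul lam).add ((hasDerivAt_id t).const_mul A)
    refine this.congr_deriv ?_
    simp
  refine h1.exp.congr_deriv ?_
  unfold QQ
  ring

lemma QQ_s (he : 0 < e) {t : ℝ} (x : Fin d → ℝ) (k : Fin d) (s : ℝ) :
    HasDerivAt (fun s => QQ c e lam A R M t (mv x k s))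
      (lam * ((x k - c k + s) / gg c e (mv x k s)) * QQ c e lam A R M t (mv x k s)) s := by
  have h1 : HasDerivAt (fun s => lam * (gg c e (mv x k s) + M t - R) + A * t)
      (lam * ((x k - c k + s) / gg c e (mv x k s))) s :=
    ((((gg_s he x k s).add_const (M t)).sub_const R).const_mul lam).add_const (A * t)
  refine h1.exp.congr_deriv ?_
  unfold QQ
  ring

lemma QQ_ss (he : 0 < e) {t : ℝ} (x : Fin d → ℝ) (k : Fin d) (s : ℝ) :
    HasDerivAt (fun s => lam * ((x k - c k + s) / gg c e (mv x k s)) * QQ c e lam A R M t (mv x k s))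
      ((lam * (1 / gg c e (mv x k s) - (x k - c k + s) ^ 2 / gg c e (mv x k s) ^ 3) +
        (lam * ((x k - c k + s) / gg c e (mv x k s))) ^ 2) * QQ c e lam A R M t (mv x k s)) s := by
  have h := ((gg_ss (c := c) he x k s).const_mul lam).mul (QQ_s (c := c) (lam := lam) (A := A) (R := R) (M := M)
    he (t := t) x k s)
  refine h.congr_deriv ?_
  ring

/-- the supersolution property -/
lemma super (he : 0 < e) (hlam : 0 ≤ lam) {m : ℝ} {u x : Fin d → ℝ} (hm : 0 ≤ m)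
    (hu : ∑ k, u k ^ 2 ≤ m ^ 2) :
    ∑ k, (lam * (1 / gg c e x - (x k - c k) ^ 2 / gg c e x ^ 3) + (lam * ((x k - c k) / gg c e x)) ^ 2) ≤
      lam * m + (lam ^ 2 + d * lam / e) + ∑ k, u k * (lam * ((x k - c k) / gg c e x)) := by
  have hg := gg_pos (c := c) he x
  have hge := gg_ge (c := c) he x
  have hsq := gg_sq (c := c) he x
  set g := gg c e x with hgdef
  set X : Fin d → ℝ := fun k => (x k - c k) / g with hX
  have hXX : ∑ k, X k ^ 2 ≤ 1 := by
    have : ∑ k, X k ^ 2 = dq x c / g ^ 2 := by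
      unfold dq
      rw [Finset.sum_div]
      exact Finset.sum_congr rfl fun k _ => by simp only [hX]; rw [div_pow]
    rw [this, div_le_one (by positivity), hsq]
    nlinarith [sq_nonneg e]
  have h1 : 1 / g ≤ 1 / e := one_div_le_one_div_of_le he hge
  have h4 : -m ≤ ∑ k, u k * X k := by
    have h5 : (∑ k, u k * X k) ^ 2 ≤ m ^ 2 := by
      have h6 := Finset.sum_mul_sq_le_sq_mul_sq Finset.univ u X
      have h7 : (∑ k, u k ^ 2) * ∑ k, X k ^ 2 ≤ (∑ k, u k ^ 2) * 1 :=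
        mul_le_mul_of_nonneg_left hXX (Finset.sum_nonneg fun _ _ => sq_nonneg _)
      linarith
    exact (abs_le.1 (abs_le_of_sq_le_sq h5 hm)).1
  have h7 : lam * (-m) ≤ lam * (∑ k, u k * X k) := mul_le_mul_of_nonneg_left h4 hlam
  have h8 : ∑ k, (lam * (1 / g - (x k - c k) ^ 2 / g ^ 3) + (lam * X k) ^ 2) ≤
      ∑ k : Fin d, (lam * (1 / e) + lam ^ 2 * X k ^ 2) := by
    refine Finset.sum_le_sum fun k _ => ?_
    have h2 : 0 ≤ (x k - c k) ^ 2 / g ^ 3 := by positivity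
    have h9 : lam * (1 / g - (x k - c k) ^ 2 / g ^ 3) ≤ lam * (1 / e) :=
      mul_le_mul_of_nonneg_left (by linarith) hlam
    rw [mul_pow]
    linarith
  have h9 : ∑ k : Fin d, (lam * (1 / e) + lam ^ 2 * X k ^ 2) = d * lam / e + lam ^ 2 * ∑ k, X k ^ 2 := by
    rw [Finset.sum_add_distrib, Finset.mul_sum]
    simp
    ring
  have h10 : lam ^ 2 * ∑ k, X k ^ 2 ≤ lam ^ 2 * 1 := mul_le_mul_of_nonneg_left hXX (sq_nonneg _)
  have h11 : ∑ k, u k * (lam * X k) = lam * ∑ k, u k * X k := by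
    rw [Finset.mul_sum]
    exact Finset.sum_congr rfl fun k _ => by ring
  have h12 : ∑ k, (lam * (1 / g - (x k - c k) ^ 2 / g ^ 3) + (lam * ((x k - c k) / g)) ^ 2) =
      ∑ k, (lam * (1 / g - (x k - c k) ^ 2 / g ^ 3) + (lam * X k) ^ 2) := rfl
  have h13 : ∑ k, u k * (lam * ((x k - c k) / g)) = ∑ k, u k * (lam * X k) := rfl
  rw [h12, h13, h11]
  linarith

lemma isClosed_ball (c : Fin d → ℝ) (R : ℝ) : IsCompact {x : Fin d → ℝ | dq x c ≤ R ^ 2} := by
  have hcl : IsClosed {x : Fin d → ℝ | dq x c ≤ R ^ 2} := isClosed_le (dq_cont c) continuous_const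
  refine IsCompact.of_isClosed_subset (isCompact_Icc (a := fun k => c k - |R|) (b := fun k => c k + |R|)) hcl ?_
  intro x hx
  have hx' : dq x c ≤ R ^ 2 := hx
  have hk : ∀ k, |x k - c k| ≤ |R| := by
    intro k
    have h1 : (x k - c k) ^ 2 ≤ R ^ 2 := by
      refine le_trans ?_ hx'
      unfold dq
      exact Finset.single_le_sum (f := fun k => (x k - c k) ^ 2) (fun _ _ => sq_nonneg _) (Finset.mem_univ k)
    exact sq_le_sq.1 h1
  refine ⟨fun k => ?_, fun k => ?_⟩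
  · have := (abs_le.1 (hk k)).1
    simp only
    linarith
  · have := (abs_le.1 (hk k)).2
    simp only
    linarith

/-- Comparison up to every time `T' < T`. -/
theorem compare {Ω : Set (Fin d → ℝ)} (hΩ : IsOpen Ω) {T : ℝ} (hT : 0 < T) {u : Fin d → E d → ℝ} {w : E d → ℝ}
    (hwc : ContinuousOn w (Icc 0 T ×ˢ Ω)) (hw2 : ContDiffOn ℝ ((2 : ℕ) : ℕ∞) w (Ioo 0 T ×ˢ Ω))
    {M m S σ : ℝ → ℝ} (hMc : ContinuousOn M (Icc 0 T)) (hM0 : M 0 = 0)
    (hMd : ∀ t ∈ Ioo 0 T, HasDerivAt M (m t) t) (hm : ∀ t ∈ Ioo 0 T, 0 ≤ m t)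
    (hSc : ContinuousOn S (Icc 0 T)) (hS0 : S 0 = 0)
    (hSd : ∀ t ∈ Ioo 0 T, HasDerivAt S (σ t) t) (hσ : ∀ t ∈ Ioo 0 T, 0 ≤ σ t)
    (hc : ∀ x, dq x c ≤ R ^ 2 → x ∈ Ω)
    (hu : ∀ t ∈ Ioo 0 T, ∀ x, dq x c ≤ R ^ 2 → ∑ k, u k (t, x) ^ 2 ≤ m t ^ 2)
    (heq : ∀ t ∈ Ioo 0 T, ∀ x, dq x c ≤ R ^ 2 →
      ∑ k, pd (ek k) (pd (ek k) w) (t, x) ≤ pd et w (t, x) + ∑ k, u k (t, x) * pd (ek k) w (t, x) + σ t)
    {K a : ℝ} (haK : a ≤ K) (hK0 : 0 ≤ K) (hK : ∀ t ∈ Ioo 0 T, ∀ x, dq x c ≤ R ^ 2 → |w (t, x)| ≤ K)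
    (h0 : ∀ x, dq x c ≤ R ^ 2 → a ≤ w (0, x)) (he : 0 < e) (hlam : 0 ≤ lam) {T' : ℝ} (hT' : T' < T)
    {t : ℝ} {x : Fin d → ℝ} (ht : t ∈ Icc 0 T') (hx : dq x c ≤ R ^ 2) :
    a ≤ w (t, x) + S t + 2 * K * QQ c e lam (lam ^ 2 + d * lam / e) R M t x := by
  set A := lam ^ 2 + d * lam / e with hA
  have hA0 : 0 ≤ A := by positivity
  have hmono : ∀ {F f : ℝ → ℝ}, ContinuousOn F (Icc 0 T) → F 0 = 0 → (∀ t ∈ Ioo 0 T, HasDerivAt F (f t) t) →
      (∀ t ∈ Ioo 0 T, 0 ≤ f t) → ∀ t ∈ Icc 0 T, 0 ≤ F t := by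
    intro F f h1 h2 h3 h4 t ht
    have h5 : MonotoneOn F (Icc 0 T) := by
      apply monotoneOn_of_deriv_nonneg (convex_Icc 0 T) h1
      · intro t ht
        rw [interior_Icc] at ht
        exact (h3 t ht).differentiableAt.differentiableWithinAt
      · intro t ht
        rw [interior_Icc] at ht
        rw [(h3 t ht).deriv]
        exact h4 t ht
    have := h5 (left_mem_Icc.2 hT.le) ht ht.1
    rwa [h2] at this
  have hM := hmono hMc hM0 hMd hm
  have hS := hmono hSc hS0 hSd hσ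
  suffices H : ∀ ε > 0, a ≤ w (t, x) + S t + 2 * K * QQ c e lam A R M t x + ε * t by
    refine le_of_forall_pos_le_add ?_
    intro η hη
    have hz1 : 0 ≤ t := ht.1
    have := H (η / (t + 1)) (by positivity)
    have h2 : η / (t + 1) * t ≤ η := by
      rw [div_mul_eq_mul_div, div_le_iff₀ (by positivity)]
      nlinarith
    linarith
  intro ε hε
  set f : E d → ℝ := fun z => w z + S z.1 + 2 * K * QQ c e lam A R M z.1 z.2 + ε * z.1 with hf
  set B : Set (E d) := Icc 0 T' ×ˢ {x : Fin d → ℝ | dq x c ≤ R ^ 2} with hB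
  have hBc : IsCompact B := isCompact_Icc.prod (isClosed_ball c R)
  have hsub : B ⊆ Icc 0 T ×ˢ Ω := fun z hz => ⟨⟨hz.1.1, hz.1.2.trans hT'.le⟩, hc _ hz.2⟩
  have hsub1 : ∀ z ∈ B, z.1 ∈ Icc 0 T := fun z hz => (hsub hz).1
  have hfc : ContinuousOn f B := by
    have e1 : ContinuousOn (fun z : E d => S z.1) B := hSc.comp continuous_fst.continuousOn hsub1
    have e2 : ContinuousOn (fun z : E d => M z.1) B := hMc.comp continuous_fst.continuousOn hsub1
    have e3 : ContinuousOn (fun z : E d => gg c e z.2) B := (gg_cont.comp continuous_snd).continuousOn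
    have e4 : ContinuousOn (fun z : E d => z.1) B := continuous_fst.continuousOn
    refine (((hwc.mono hsub).add e1).add ?_).add (continuousOn_const.mul e4)
    unfold QQ
    exact continuousOn_const.mul (((continuousOn_const.mul ((e3.add e2).sub continuousOn_const)).add
      (continuousOn_const.mul e4)).rexp)
  obtain ⟨z0, hz0, hmin⟩ := hBc.exists_isMinOn ⟨(t, x), ht, hx⟩ hfc
  have hmin' : ∀ z ∈ B, f z0 ≤ f z := fun z hz => hmin hz
  suffices H0 : a ≤ f z0 from H0.trans (hmin' (t, x) ⟨ht, hx⟩)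
  obtain ⟨t0, x0⟩ := z0
  obtain ⟨ht1, hx1⟩ := hz0
  have hx1' : dq x0 c ≤ R ^ 2 := hx1
  have ht1' : t0 ∈ Icc 0 T' := ht1
  have htI : t0 ∈ Icc 0 T := ⟨ht1'.1, ht1'.2.trans hT'.le⟩
  have hQp := QQ_pos (c := c) (e := e) (lam := lam) (A := A) (R := R) (M := M) t0 x0
  have hKQ : 0 ≤ 2 * K * QQ c e lam A R M t0 x0 := by positivity
  have hS1 := hS t0 htI
  have hM1 := hM t0 htI
  rcases eq_or_lt_of_le ht1'.1 with h00 | ht0
  · have h1 := h0 x0 hx1'
    simp only [hf]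
    rw [← h00] at hKQ hS1 ⊢
    linarith
  have htT : t0 < T := lt_of_le_of_lt ht1'.2 hT'
  have htO : t0 ∈ Ioo 0 T := ⟨ht0, htT⟩
  have hwK := abs_le.1 (hK t0 htO x0 hx1')
  by_cases hbd : dq x0 c = R ^ 2
  · have h1 : 1 ≤ QQ c e lam A R M t0 x0 := by
      unfold QQ
      apply Real.one_le_exp
      have h2 : R ≤ gg c e x0 := by
        apply Real.le_sqrt_of_sq_le
        rw [hbd]
        linarith [sq_nonneg e]
      have h3 : 0 ≤ lam * (gg c e x0 + M t0 - R) := mul_nonneg hlam (by linarith)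
      have h4 : 0 ≤ A * t0 := mul_nonneg hA0 ht0.le
      linarith
    have h2 : 2 * K * 1 ≤ 2 * K * QQ c e lam A R M t0 x0 := mul_le_mul_of_nonneg_left h1 (by positivity)
    have h3 : 0 ≤ ε * t0 := by positivity
    simp only [hf]
    linarith [hwK.1]
  -- interior point: contradiction
  exfalso
  have hlt : dq x0 c < R ^ 2 := lt_of_le_of_ne hx1' hbd
  have hOp : IsOpen (Ioo 0 T ×ˢ Ω : Set (E d)) := isOpen_Ioo.prod hΩ
  have hzC : ((t0, x0) : E d) ∈ Ioo 0 T ×ˢ Ω := ⟨htO, hc _ hx1'⟩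
  have dw : ∀ z ∈ (Ioo 0 T ×ˢ Ω : Set (E d)), DifferentiableAt ℝ w z := fun z hz =>
    diffAt hOp (by norm_num) hw2 hz
  have dw1 : ∀ e', ∀ z ∈ (Ioo 0 T ×ˢ Ω : Set (E d)), DifferentiableAt ℝ (pd e' w) z := fun e' z hz =>
    diffAt hOp (n := 1) (by norm_num) (pd_contDiffOn hOp hw2 e') hz
  -- time derivative
  have wt : HasDerivAt (fun s => w (s, x0)) (pd et w (t0, x0)) t0 := by
    have h1 : HasDerivAt (fun s : ℝ => ((s, x0) : E d)) et t0 :=
      (hasDerivAt_id t0).prodMk (hasDerivAt_const t0 x0)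
    exact (dw _ hzC).hasFDerivAt.comp_hasDerivAt t0 h1
  have ft : HasDerivAt (fun s => f (s, x0))
      (pd et w (t0, x0) + σ t0 + 2 * K * ((lam * m t0 + A) * QQ c e lam A R M t0 x0) + ε * 1) t0 :=
    ((wt.add (hSd t0 htO)).add ((QQ_t (hMd t0 htO)).const_mul (2 * K))).add ((hasDerivAt_id t0).const_mul ε)
  have hleft : ∀ᶠ s in 𝓝[<] t0, f (t0, x0) ≤ f (s, x0) := by
    have : Ioo 0 t0 ∈ 𝓝[<] t0 := Ioo_mem_nhdsLT ht0
    filter_upwards [this] with s hs
    exact hmin' _ ⟨⟨hs.1.le, hs.2.le.trans ht1'.2⟩, hx1⟩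
  have c1 := left_nonpos ft hleft
  -- space derivatives
  have key : ∀ k : Fin d, pd (ek k) w (t0, x0) = -(2 * K * (lam * ((x0 k - c k) / gg c e x0) * QQ c e lam A R M t0 x0)) ∧
      0 ≤ pd (ek k) (pd (ek k) w) (t0, x0) + 2 * K * ((lam * (1 / gg c e x0 - (x0 k - c k) ^ 2 / gg c e x0 ^ 3) +
        (lam * ((x0 k - c k) / gg c e x0)) ^ 2) * QQ c e lam A R M t0 x0) := by
    intro k
    have hmvc : Continuous (mv x0 k) := by
      unfold mv
      fun_prop
    have ev : ∀ᶠ s in 𝓝 (0 : ℝ), dq (mv x0 k s) c < R ^ 2 := by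
      have h1 : Tendsto (fun s => dq (mv x0 k s) c) (𝓝 0) (𝓝 (dq (mv x0 k 0) c)) :=
        ((dq_cont c).comp hmvc).tendsto 0
      rw [mv_zero] at h1
      exact h1.eventually_lt_const hlt
    have mx : IsLocalMin (fun s => f (t0, mv x0 k s)) 0 := by
      filter_upwards [ev] with s hs
      rw [mv_zero]
      exact hmin' _ ⟨ht1, le_of_lt hs⟩
    have fx : ∀ᶠ s in 𝓝 (0 : ℝ), HasDerivAt (fun s => f (t0, mv x0 k s))
        ((fun s => pd (ek k) w (t0, mv x0 k s) + 2 * K * (lam * ((x0 k - c k + s) / gg c e (mv x0 k s)) *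
          QQ c e lam A R M t0 (mv x0 k s))) s) s := by
      filter_upwards [ev] with s hs
      have hmem : ((t0, mv x0 k s) : E d) ∈ Ioo 0 T ×ˢ Ω := ⟨htO, hc _ hs.le⟩
      have h1 : HasDerivAt (fun s => w (t0, mv x0 k s)) (pd (ek k) w (t0, mv x0 k s)) s := by
        have h2 := slice (F := w) (z := (t0, x0)) (e := ek k) (s := s) (by rw [ek_mv]; exact dw _ hmem)
        simp only [ek_mv] at h2
        exact h2
      exact ((h1.add_const (S t0)).add ((QQ_s (c := c) (lam := lam) (A := A) (R := R) (M := M) he (t := t0)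
        x0 k s).const_mul (2 * K))).add_const (ε * t0)
    have fxx : HasDerivAt (fun s => pd (ek k) w (t0, mv x0 k s) + 2 * K * (lam * ((x0 k - c k + s) /
        gg c e (mv x0 k s)) * QQ c e lam A R M t0 (mv x0 k s)))
        (pd (ek k) (pd (ek k) w) (t0, mv x0 k 0) + 2 * K * ((lam * (1 / gg c e (mv x0 k 0) -
          (x0 k - c k + 0) ^ 2 / gg c e (mv x0 k 0) ^ 3) +
        (lam * ((x0 k - c k + 0) / gg c e (mv x0 k 0))) ^ 2) * QQ c e lam A R M t0 (mv x0 k 0))) 0 := by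
      have hmem : ((t0, mv x0 k 0) : E d) ∈ Ioo 0 T ×ˢ Ω := by rw [mv_zero]; exact hzC
      have h1 : HasDerivAt (fun s => pd (ek k) w (t0, mv x0 k s)) (pd (ek k) (pd (ek k) w) (t0, mv x0 k 0)) 0 := by
        have h2 := slice (F := pd (ek k) w) (z := (t0, x0)) (e := ek k) (s := 0)
          (by rw [ek_mv]; exact dw1 _ _ hmem)
        simp only [ek_mv] at h2
        exact h2
      exact h1.add ((QQ_ss (c := c) (lam := lam) (A := A) (R := R) (M := M) he (t := t0) x0 k 0).const_mul (2 * K))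
    obtain ⟨h1, h2⟩ := snd_nonneg fx fxx mx
    simp only [mv_zero, add_zero] at h1 h2
    exact ⟨by linarith, h2⟩
  have hsup := super (c := c) (x := x0) he hlam (hm t0 htO) (hu t0 htO x0 hx1')
  have hE := heq t0 htO x0 hx1'
  have hsum1 : 0 ≤ ∑ k, pd (ek k) (pd (ek k) w) (t0, x0) + 2 * K * QQ c e lam A R M t0 x0 *
      ∑ k, (lam * (1 / gg c e x0 - (x0 k - c k) ^ 2 / gg c e x0 ^ 3) +
        (lam * ((x0 k - c k) / gg c e x0)) ^ 2) := by
    rw [Finset.mul_sum, ← Finset.sum_add_distrib]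
    refine Finset.sum_nonneg fun k _ => ?_
    have := (key k).2
    linarith
  have hsum2 : ∑ k, u k (t0, x0) * pd (ek k) w (t0, x0) = -(2 * K * QQ c e lam A R M t0 x0 *
      ∑ k, u k (t0, x0) * (lam * ((x0 k - c k) / gg c e x0))) := by
    rw [Finset.mul_sum, ← Finset.sum_neg_distrib]
    refine Finset.sum_congr rfl fun k _ => ?_
    rw [(key k).1]
    ring
  have h3 := mul_le_mul_of_nonneg_left hsup hKQ
  rw [hsum2] at hE
  nlinarith [h3, c1, hE, hsum1, hε]

end Pool.Agent.V5helper38.ID
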