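import Mathlib

/-! Classical solutions of the Navier-Stokes equations in space dimension `d`: definitions. Points of space-time are
pairs `(t, x)`. -/

namespace Pool.Agent.V5helper38.ID

open Set

/-- Space-time: pairs `(t, x)` with `x` in `d`-dimensional space. -/
abbrev E (d : ℕ) := ℝ × (Fin d → ℝ)

/-- The direction of the time. -/
def et {d : ℕ} : E d := (1, 0)

/-- The direction of the `k`-th space coordinate. -/
def ek {d : ℕ} (k : Fin d) : E d := (0, Pi.single k 1)

/-- The partial derivative of `F` in the direction `e`. -/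
noncomputable def pd {d : ℕ} (e : E d) (F : E d → ℝ) : E d → ℝ := fun z => fderiv ℝ F z e

/-- The squared Euclidean distance. -/
def dq {d : ℕ} (x c : Fin d → ℝ) : ℝ := ∑ k, (x k - c k) ^ 2

/-- `(u, p)` is a classical solution (`u` is `C³`, `p` is `C²`) of the Navier-Stokes equations with unit viscosity in
the open set `O` of space-time: `∂_t u_i + ∑_k u_k ∂_k u_i - ∑_k ∂_k ∂_k u_i + ∂_i p = 0`, `∑_k ∂_k u_k = 0`. -/
structure IsNS {d : ℕ} (O : Set (E d)) (u : Fin d → E d → ℝ) (p : E d → ℝ) : Prop where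
  smooth_u : ∀ i, ContDiffOn ℝ 3 (u i) O
  smooth_p : ContDiffOn ℝ 2 p O
  eq : ∀ i, ∀ z ∈ O, pd et (u i) z + ∑ k, u k z * pd (ek k) (u i) z
    - ∑ k, pd (ek k) (pd (ek k) (u i)) z + pd (ek i) p z = 0
  div : ∀ z ∈ O, ∑ k, pd (ek k) (u k) z = 0

/-- The component `∂_i u_j - ∂_j u_i` of the vorticity. -/
noncomputable def vort {d : ℕ} (u : Fin d → E d → ℝ) (i j : Fin d) : E d → ℝ :=
  fun z => pd (ek i) (u j) z - pd (ek j) (u i) z

end Pool.Agent.V5helper38.ID
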