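import Pool.Agent.V5helper38.ID.Core

/-! The value at the centre at the final time. -/

namespace Pool.Agent.V5helper38.ID

open Set Filter Topology

variable {d : ℕ} {c : Fin d → ℝ} {R : ℝ} {M : ℝ → ℝ}

lemma gg_self {e : ℝ} (he : 0 < e) : gg c e c = e := by
  unfold gg dq
  simp [Real.sqrt_sq he.le]

/-- The general bound for a scalar. -/
theorem scalar {Ω : Set (Fin d → ℝ)} (hΩ : IsOpen Ω) {T : ℝ} (hT : 0 < T) {u : Fin d → E d → ℝ} {w : E d → ℝ}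
    (hwc : ContinuousOn w (Icc 0 T ×ˢ Ω)) (hw2 : ContDiffOn ℝ ((2 : ℕ) : ℕ∞) w (Ioo 0 T ×ˢ Ω))
    {m S σ : ℝ → ℝ} (hMc : ContinuousOn M (Icc 0 T)) (hM0 : M 0 = 0)
    (hMd : ∀ t ∈ Ioo 0 T, HasDerivAt M (m t) t) (hm : ∀ t ∈ Ioo 0 T, 0 ≤ m t)
    (hSc : ContinuousOn S (Icc 0 T)) (hS0 : S 0 = 0)
    (hSd : ∀ t ∈ Ioo 0 T, HasDerivAt S (σ t) t) (hσ : ∀ t ∈ Ioo 0 T, 0 ≤ σ t)
    (hc : ∀ x, dq x c ≤ R ^ 2 → x ∈ Ω)
    (hu : ∀ t ∈ Ioo 0 T, ∀ x, dq x c ≤ R ^ 2 → ∑ k, u k (t, x) ^ 2 ≤ m t ^ 2)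
    (heq : ∀ t ∈ Ioo 0 T, ∀ x, dq x c ≤ R ^ 2 →
      ∑ k, pd (ek k) (pd (ek k) w) (t, x) ≤ pd et w (t, x) + ∑ k, u k (t, x) * pd (ek k) w (t, x) + σ t)
    {K a : ℝ} (haK : a ≤ K) (hK0 : 0 ≤ K) (hK : ∀ t ∈ Ioo 0 T, ∀ x, dq x c ≤ R ^ 2 → |w (t, x)| ≤ K)
    (h0 : ∀ x, dq x c ≤ R ^ 2 → a ≤ w (0, x)) (hMR : M T + (d + 1) * Real.sqrt T ≤ R) :
    a - S T - 2 * K * Real.exp (-((R - M T - (d + 1) * Real.sqrt T) ^ 2 / (4 * T))) ≤ w (T, c) := by
  have hsT : 0 < Real.sqrt T := Real.sqrt_pos.2 hT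
  have hsT2 : Real.sqrt T ^ 2 = T := Real.sq_sqrt hT.le
  set e := Real.sqrt T with he
  set lam := (R - M T - (d + 1) * e) / (2 * T) with hlam
  have hlam0 : 0 ≤ lam := div_nonneg (by linarith) (by positivity)
  have hcc : dq c c ≤ R ^ 2 := by
    have : dq c c = 0 := by simp [dq]
    rw [this]
    positivity
  have hF : ∀ t ∈ Ico 0 T, a ≤ w (t, c) + S t + 2 * K * QQ c e lam (lam ^ 2 + d * lam / e) R M t c := by
    intro t ht
    exact compare hΩ hT hwc hw2 hMc hM0 hMd hm hSc hS0 hSd hσ hc hu heq haK hK0 hK h0 hsT hlam0 ht.2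
      ⟨ht.1, le_rfl⟩ hcc
  have hFc : ContinuousOn (fun t => w (t, c) + S t + 2 * K * QQ c e lam (lam ^ 2 + d * lam / e) R M t c)
      (Icc 0 T) := by
    have e1 : ContinuousOn (fun t => w (t, c)) (Icc 0 T) :=
      hwc.comp (Continuous.prodMk continuous_id continuous_const).continuousOn fun t ht => ⟨ht, hc _ hcc⟩
    refine (e1.add hSc).add ?_
    unfold QQ
    exact continuousOn_const.mul (((continuousOn_const.mul ((continuousOn_const.add hMc).sub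
      continuousOn_const)).add (continuousOn_const.mul continuousOn_id)).rexp)
  have hlim : Tendsto (fun t => w (t, c) + S t + 2 * K * QQ c e lam (lam ^ 2 + d * lam / e) R M t c) (𝓝[<] T)
      (𝓝 (w (T, c) + S T + 2 * K * QQ c e lam (lam ^ 2 + d * lam / e) R M T c)) := by
    have h1 := hFc T (right_mem_Icc.2 hT.le)
    have h2 : 𝓝[<] T ≤ 𝓝[Icc 0 T] T := by
      rw [← nhdsWithin_Ico_eq_nhdsLT hT]
      exact nhdsWithin_mono _ Ico_subset_Icc_self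
    exact h1.mono_left h2
  have hfin : a ≤ w (T, c) + S T + 2 * K * QQ c e lam (lam ^ 2 + d * lam / e) R M T c := by
    refine ge_of_tendsto hlim ?_
    have : Ico 0 T ∈ 𝓝[<] T := Ico_mem_nhdsLT hT
    filter_upwards [this] with t ht using hF t ht
  have hQ : QQ c e lam (lam ^ 2 + d * lam / e) R M T c =
      Real.exp (-((R - M T - (d + 1) * e) ^ 2 / (4 * T))) := by
    unfold QQ
    rw [gg_self hsT]
    congr 1
    have h1 : (lam ^ 2 + d * lam / e) * T = lam ^ 2 * T + d * lam * e := by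
      rw [← hsT2]
      field_simp
    rw [h1, hlam]
    field_simp
    ring
  rw [hQ] at hfin
  linarith

/-- From the exponential bound to the lower bound for the displacement. -/
lemma displacement {T R' Q a b K : ℝ} (hT : 0 < T) (hba : b < a) (hK : 0 < K)
    (h : Q ≤ R' → a - 2 * K * Real.exp (-((R' - Q) ^ 2 / (4 * T))) ≤ b) :
    R' - 2 * Real.sqrt (T * Real.log (2 * K / (a - b))) ≤ Q := by
  have hs := Real.sqrt_nonneg (T * Real.log (2 * K / (a - b)))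
  by_cases hQ : R' < Q
  · linarith
  have h1 := h (not_lt.1 hQ)
  have hab : 0 < a - b := by linarith
  have h2 : a - b ≤ 2 * K * Real.exp (-((R' - Q) ^ 2 / (4 * T))) := by linarith
  have h3 : Real.exp ((R' - Q) ^ 2 / (4 * T)) ≤ 2 * K / (a - b) := by
    rw [le_div_iff₀ hab]
    have h4 : Real.exp ((R' - Q) ^ 2 / (4 * T)) * Real.exp (-((R' - Q) ^ 2 / (4 * T))) = 1 := by
      rw [← Real.exp_add]; simp
    have h5 := mul_le_mul_of_nonneg_left h2 (Real.exp_pos ((R' - Q) ^ 2 / (4 * T))).le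
    calc Real.exp ((R' - Q) ^ 2 / (4 * T)) * (a - b) ≤
        Real.exp ((R' - Q) ^ 2 / (4 * T)) * (2 * K * Real.exp (-((R' - Q) ^ 2 / (4 * T)))) := h5
      _ = 2 * K * (Real.exp ((R' - Q) ^ 2 / (4 * T)) * Real.exp (-((R' - Q) ^ 2 / (4 * T)))) := by ring
      _ = 2 * K := by rw [h4, mul_one]
  have h6 : (R' - Q) ^ 2 / (4 * T) ≤ Real.log (2 * K / (a - b)) := by
    rw [Real.le_log_iff_exp_le (by positivity)]
    exact h3
  have h7 : ((R' - Q) / 2) ^ 2 ≤ T * Real.log (2 * K / (a - b)) := by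
    rw [div_le_iff₀ (by positivity)] at h6
    nlinarith
  have h8 := (abs_le.1 (Real.abs_le_sqrt h7)).2
  linarith

/-- In dimension two the vorticity is not stretched. -/
lemma stretch_two {u : Fin 2 → E 2 → ℝ} {z : E 2} (h : ∑ k, pd (ek k) (u k) z = 0) (i j : Fin 2) :
    ∑ k, (pd (ek i) (u k) z * vort u k j z + vort u i k z * pd (ek j) (u k) z) = 0 := by
  have hii : ∀ i : Fin 2, vort u i i z = 0 := fun i => by simp [vort]
  have h10 : vort u 1 0 z = - vort u 0 1 z := by simp [vort]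
  simp only [Fin.sum_univ_two] at h ⊢
  have h5 : (pd (ek 0) (u 0) z + pd (ek 1) (u 1) z) * vort u 0 1 z = 0 := by
    rw [h, zero_mul]
  fin_cases i <;> fin_cases j <;> simp only [Fin.zero_eta, Fin.mk_one, Fin.isValue, hii, h10] <;> linarith

/-- dimension two -/
theorem dim_two {Ω : Set (Fin 2 → ℝ)} (hΩ : IsOpen Ω) {T : ℝ} (hT : 0 < T) {u : Fin 2 → E 2 → ℝ} {p w : E 2 → ℝ}
    (hns : IsNS (Ioo 0 T ×ˢ Ω) u p) {i j : Fin 2} (hw : ∀ z ∈ Ioo 0 T ×ˢ Ω, w z = vort u i j z)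
    (hwc : ContinuousOn w (Icc 0 T ×ˢ Ω)) {c : Fin 2 → ℝ}
    {m : ℝ → ℝ} (hMc : ContinuousOn M (Icc 0 T)) (hM0 : M 0 = 0)
    (hMd : ∀ t ∈ Ioo 0 T, HasDerivAt M (m t) t) (hm : ∀ t ∈ Ioo 0 T, 0 ≤ m t)
    (hc : ∀ x, dq x c ≤ R ^ 2 → x ∈ Ω)
    (hu : ∀ t ∈ Ioo 0 T, ∀ x, dq x c ≤ R ^ 2 → ∑ k, u k (t, x) ^ 2 ≤ m t ^ 2)
    {K a : ℝ} (haK : a ≤ K) (hK0 : 0 < K) (hK : ∀ t ∈ Ioo 0 T, ∀ x, dq x c ≤ R ^ 2 → |w (t, x)| ≤ K)
    (h0 : ∀ x, dq x c ≤ R ^ 2 → a ≤ w (0, x)) :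
    (M T + 3 * Real.sqrt T ≤ R →
      a - 2 * K * Real.exp (-((R - M T - 3 * Real.sqrt T) ^ 2 / (4 * T))) ≤ w (T, c)) ∧
    ∀ b < a, w (T, c) ≤ b → R - 3 * Real.sqrt T - 2 * Real.sqrt (T * Real.log (2 * K / (a - b))) ≤ M T := by
  have hOp : IsOpen (Ioo 0 T ×ˢ Ω : Set (E 2)) := isOpen_Ioo.prod hΩ
  obtain ⟨hv2, hveq⟩ := vorticity_eq hOp hns i j
  have hw2 : ContDiffOn ℝ ((2 : ℕ) : ℕ∞) w (Ioo 0 T ×ˢ Ω) := hv2.congr hw
  have q1 : ∀ e, ∀ z ∈ (Ioo 0 T ×ˢ Ω : Set (E 2)), pd e w z = pd e (vort u i j) z := fun e z hz =>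
    pd_congr hOp hw hz e
  have q2 : ∀ e, ∀ z ∈ (Ioo 0 T ×ˢ Ω : Set (E 2)), pd e (pd e w) z = pd e (pd e (vort u i j)) z := fun e z hz =>
    pd_congr hOp (q1 e) hz e
  have hA : M T + 3 * Real.sqrt T ≤ R →
      a - 2 * K * Real.exp (-((R - M T - 3 * Real.sqrt T) ^ 2 / (4 * T))) ≤ w (T, c) := by
    intro hMR
    have h := scalar (d := 2) (σ := fun _ => 0) (S := fun _ => 0) hΩ hT hwc hw2 hMc hM0 hMd hm
      continuousOn_const rfl (fun t _ => hasDerivAt_const t 0) (fun _ _ => le_rfl) hc hu (by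
        intro t ht x hx
        have hz : ((t, x) : E 2) ∈ Ioo 0 T ×ˢ Ω := ⟨ht, hc x hx⟩
        have h1 := hveq _ hz
        rw [stretch_two (hns.div _ hz) i j] at h1
        rw [q1 _ _ hz, Finset.sum_congr rfl fun k _ => q2 (ek k) _ hz,
          Finset.sum_congr (f := fun k => u k (t, x) * pd (ek k) w (t, x)) rfl fun k _ => by rw [q1 (ek k) _ hz]]
        linarith) haK hK0.le hK h0 (by
        push_cast
        norm_num
        linarith)
    have e3 : ((2 : ℕ) : ℝ) + 1 = 3 := by norm_num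
    rw [e3] at h
    linarith
  refine ⟨hA, fun b hb hwb => ?_⟩
  have h := displacement (T := T) (R' := R - 3 * Real.sqrt T) (Q := M T) (a := a) (b := b) (K := K) hT hb hK0 (by
    intro hQ
    have h1 := hA (by linarith)
    have e1 : R - 3 * Real.sqrt T - M T = R - M T - 3 * Real.sqrt T := by ring
    rw [e1]
    linarith)
  exact h

/-- any dimension -/
theorem dim_any {Ω : Set (Fin d → ℝ)} (hΩ : IsOpen Ω) {T : ℝ} (hT : 0 < T) {u : Fin d → E d → ℝ} {p w : E d → ℝ}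
    (hns : IsNS (Ioo 0 T ×ˢ Ω) u p) {i j : Fin d} (hw : ∀ z ∈ Ioo 0 T ×ˢ Ω, w z = vort u i j z)
    (hwc : ContinuousOn w (Icc 0 T ×ˢ Ω))
    {m G g : ℝ → ℝ} (hMc : ContinuousOn M (Icc 0 T)) (hM0 : M 0 = 0)
    (hMd : ∀ t ∈ Ioo 0 T, HasDerivAt M (m t) t) (hm : ∀ t ∈ Ioo 0 T, 0 ≤ m t)
    (hGc : ContinuousOn G (Icc 0 T)) (hG0 : G 0 = 0)
    (hGd : ∀ t ∈ Ioo 0 T, HasDerivAt G (g t) t) (hg : ∀ t ∈ Ioo 0 T, 0 ≤ g t)
    (hc : ∀ x, dq x c ≤ R ^ 2 → x ∈ Ω)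
    (hu : ∀ t ∈ Ioo 0 T, ∀ x, dq x c ≤ R ^ 2 → ∑ k, u k (t, x) ^ 2 ≤ m t ^ 2)
    (hdu : ∀ t ∈ Ioo 0 T, ∀ x, dq x c ≤ R ^ 2 → ∀ k l, |pd (ek k) (u l) (t, x)| ≤ g t)
    {K a : ℝ} (haK : a ≤ K) (hK0 : 0 < K)
    (hK : ∀ t ∈ Ioo 0 T, ∀ x, dq x c ≤ R ^ 2 → ∀ k l, |vort u k l (t, x)| ≤ K)
    (h0 : ∀ x, dq x c ≤ R ^ 2 → a ≤ w (0, x)) :
    (M T + (d + 1) * Real.sqrt T ≤ R → a - 2 * d * K * G T
      - 2 * K * Real.exp (-((R - M T - (d + 1) * Real.sqrt T) ^ 2 / (4 * T))) ≤ w (T, c)) ∧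
    ∀ b < a, w (T, c) ≤ b → a - b ≤ 4 * d * K * G T ∨
      R - (d + 1) * Real.sqrt T - 2 * Real.sqrt (T * Real.log (4 * K / (a - b))) ≤ M T := by
  have hOp : IsOpen (Ioo 0 T ×ˢ Ω : Set (E d)) := isOpen_Ioo.prod hΩ
  obtain ⟨hv2, hveq⟩ := vorticity_eq hOp hns i j
  have hw2 : ContDiffOn ℝ ((2 : ℕ) : ℕ∞) w (Ioo 0 T ×ˢ Ω) := hv2.congr hw
  have q1 : ∀ e, ∀ z ∈ (Ioo 0 T ×ˢ Ω : Set (E d)), pd e w z = pd e (vort u i j) z := fun e z hz =>
    pd_congr hOp hw hz e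
  have q2 : ∀ e, ∀ z ∈ (Ioo 0 T ×ˢ Ω : Set (E d)), pd e (pd e w) z = pd e (pd e (vort u i j)) z := fun e z hz =>
    pd_congr hOp (q1 e) hz e
  have hA : M T + (d + 1) * Real.sqrt T ≤ R → a - 2 * d * K * G T
      - 2 * K * Real.exp (-((R - M T - (d + 1) * Real.sqrt T) ^ 2 / (4 * T))) ≤ w (T, c) := by
    intro hMR
    exact scalar (σ := fun t => 2 * d * K * g t) (S := fun t => 2 * d * K * G t) hΩ hT hwc hw2 hMc hM0 hMd hm
      (continuousOn_const.mul hGc) (by simp [hG0]) (fun t ht => (hGd t ht).const_mul _)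
      (fun t ht => mul_nonneg (by positivity) (hg t ht)) hc hu (by
        intro t ht x hx
        have hz : ((t, x) : E d) ∈ Ioo 0 T ×ˢ Ω := ⟨ht, hc x hx⟩
        have h1 := hveq _ hz
        rw [q1 _ _ hz, Finset.sum_congr rfl fun k _ => q2 (ek k) _ hz,
          Finset.sum_congr (f := fun k => u k (t, x) * pd (ek k) w (t, x)) rfl fun k _ => by rw [q1 (ek k) _ hz]]
        have hgt := hg t ht
        have h2 : ∑ k, (pd (ek i) (u k) (t, x) * vort u k j (t, x) + vort u i k (t, x) * pd (ek j) (u k) (t, x)) ≤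
            2 * d * K * g t := by
          have h3 : ∀ k : Fin d, pd (ek i) (u k) (t, x) * vort u k j (t, x) +
              vort u i k (t, x) * pd (ek j) (u k) (t, x) ≤ 2 * K * g t := by
            intro k
            have h4 : pd (ek i) (u k) (t, x) * vort u k j (t, x) ≤ g t * K := by
              refine (le_abs_self _).trans ?_
              rw [abs_mul]
              exact mul_le_mul (hdu t ht x hx i k) (hK t ht x hx k j) (abs_nonneg _) hgt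
            have h5 : vort u i k (t, x) * pd (ek j) (u k) (t, x) ≤ K * g t := by
              refine (le_abs_self _).trans ?_
              rw [abs_mul]
              exact mul_le_mul (hK t ht x hx i k) (hdu t ht x hx j k) (abs_nonneg _) hK0.le
            linarith
          refine (Finset.sum_le_sum fun k _ => h3 k).trans ?_
          simp only [Finset.sum_const, Finset.card_univ, Fintype.card_fin, nsmul_eq_mul]
          exact le_of_eq (by ring)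
        linarith) haK hK0.le (fun t ht x hx => by
        rw [hw _ ⟨ht, hc x hx⟩]
        exact hK t ht x hx i j) h0 hMR
  refine ⟨hA, fun b hb hwb => ?_⟩
  by_cases hG : a - b ≤ 4 * d * K * G T
  · exact Or.inl hG
  right
  rw [not_le] at hG
  have hab : 0 < a - b := by linarith
  have h := displacement (T := T) (R' := R - (d + 1) * Real.sqrt T) (Q := M T) (a := (a + b) / 2) (b := b)
    (K := K) hT (by linarith) hK0 (by
    intro hQ
    have h1 := hA (by linarith)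
    have e1 : R - (d + 1) * Real.sqrt T - M T = R - M T - (d + 1) * Real.sqrt T := by ring
    rw [e1]
    linarith)
  have e2 : 2 * K / ((a + b) / 2 - b) = 4 * K / (a - b) := by
    have : (a + b) / 2 - b = (a - b) / 2 := by ring
    rw [this]
    field_simp
    ring
  rw [e2] at h
  exact h

end Pool.Agent.V5helper38.ID
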