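import Pool.Agent.V5helper38.ID.Def

/-! Calculus of partial derivatives and the vorticity equation in dimension `d`. -/

namespace Pool.Agent.V5helper38.ID

open Set Filter Topology

variable {d : ℕ}

lemma pd_contDiffOn {O : Set (E d)} (hO : IsOpen O) {F : E d → ℝ} {n : ℕ}
    (h : ContDiffOn ℝ ((n + 1 : ℕ) : ℕ∞) F O) (e : E d) : ContDiffOn ℝ (n : ℕ∞) (pd e F) O := by
  have h1 : ContDiffOn ℝ (n : ℕ∞) (fun z => fderiv ℝ F z) O :=
    h.fderiv_of_isOpen hO (by norm_cast)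
  exact h1.clm_apply contDiffOn_const

lemma diffAt {O : Set (E d)} (hO : IsOpen O) {F : E d → ℝ} {n : ℕ} (hn : n ≠ 0)
    (h : ContDiffOn ℝ (n : ℕ∞) F O) {z : E d} (hz : z ∈ O) : DifferentiableAt ℝ F z := by
  have h1 : ContDiffAt ℝ (n : ℕ∞) F z := h.contDiffAt (hO.mem_nhds hz)
  exact h1.differentiableAt (by exact_mod_cast hn)

lemma pd_comm {O : Set (E d)} (hO : IsOpen O) {F : E d → ℝ} (h : ContDiffOn ℝ ((2 : ℕ) : ℕ∞) F O)
    {z : E d} (hz : z ∈ O) (e e' : E d) : pd e (pd e' F) z = pd e' (pd e F) z := by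
  have h1 : ContDiffAt ℝ ((2 : ℕ) : ℕ∞) F z := h.contDiffAt (hO.mem_nhds hz)
  have hs : IsSymmSndFDerivAt ℝ F z := h1.isSymmSndFDerivAt (by
    simp only [minSmoothness_of_isRCLikeNormedField]; norm_cast)
  have hd : DifferentiableAt ℝ (fun z => fderiv ℝ F z) z := by
    have h2 : ContDiffOn ℝ ((1 : ℕ) : ℕ∞) (fun z => fderiv ℝ F z) O :=
      h.fderiv_of_isOpen hO (by norm_cast)
    exact (h2.contDiffAt (hO.mem_nhds hz)).differentiableAt (by norm_num)
  have key : ∀ a b : E d, pd a (pd b F) z = fderiv ℝ (fderiv ℝ F) z a b := by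
    intro a b
    unfold pd
    rw [fderiv_clm_apply hd (differentiableAt_const b)]
    simp
  rw [key, key]
  exact hs e e'

lemma pd_congr {O : Set (E d)} (hO : IsOpen O) {F G : E d → ℝ} (h : ∀ z ∈ O, F z = G z) {z : E d}
    (hz : z ∈ O) (e : E d) : pd e F z = pd e G z := by
  unfold pd
  have : F =ᶠ[𝓝 z] G := by
    filter_upwards [hO.mem_nhds hz] with a ha using h a ha
  rw [this.fderiv_eq]

/-- `F` is differentiable at `z` with partial derivative `c` in the direction `e`. -/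
def HasPd (e : E d) (F : E d → ℝ) (z : E d) (c : ℝ) : Prop := DifferentiableAt ℝ F z ∧ pd e F z = c

lemma HasPd.add {e : E d} {F G : E d → ℝ} {z : E d} {a b : ℝ} (h : HasPd e F z a) (h' : HasPd e G z b) :
    HasPd e (fun z => F z + G z) z (a + b) :=
  ⟨h.1.fun_add h'.1, by
    have h1 := h.2
    have h2 := h'.2
    unfold pd at h1 h2 ⊢
    rw [fderiv_fun_add h.1 h'.1, ← h1, ← h2]; rfl⟩

lemma HasPd.sub {e : E d} {F G : E d → ℝ} {z : E d} {a b : ℝ} (h : HasPd e F z a) (h' : HasPd e G z b) :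
    HasPd e (fun z => F z - G z) z (a - b) :=
  ⟨h.1.fun_sub h'.1, by
    have h1 := h.2
    have h2 := h'.2
    unfold pd at h1 h2 ⊢
    rw [fderiv_fun_sub h.1 h'.1, ← h1, ← h2]; rfl⟩

lemma HasPd.mul {e : E d} {F G : E d → ℝ} {z : E d} {a b : ℝ} (h : HasPd e F z a) (h' : HasPd e G z b) :
    HasPd e (fun z => F z * G z) z (F z * b + G z * a) :=
  ⟨h.1.fun_mul h'.1, by
    have h1 := h.2
    have h2 := h'.2
    unfold pd at h1 h2 ⊢
    rw [fderiv_fun_mul h.1 h'.1, ← h1, ← h2]; rfl⟩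

lemma HasPd.sum {ι : Type*} {s : Finset ι} {e : E d} {F : ι → E d → ℝ} {z : E d} {a : ι → ℝ}
    (h : ∀ k ∈ s, HasPd e (F k) z (a k)) : HasPd e (fun z => ∑ k ∈ s, F k z) z (∑ k ∈ s, a k) := by
  classical
  induction s using Finset.induction_on with
  | empty =>
    refine ⟨by simp, ?_⟩
    simp [pd]
  | insert k s hk ih =>
    have h1 := (h k (Finset.mem_insert_self k s)).add (ih fun l hl => h l (Finset.mem_insert_of_mem hl))
    simp only [Finset.sum_insert hk]
    exact h1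

/-- The vorticity equation. -/
theorem vorticity_eq {O : Set (E d)} (hO : IsOpen O) {u : Fin d → E d → ℝ} {p : E d → ℝ} (h : IsNS O u p)
    (i j : Fin d) : ContDiffOn ℝ ((2 : ℕ) : ℕ∞) (vort u i j) O ∧
      ∀ z ∈ O, pd et (vort u i j) z + ∑ k, u k z * pd (ek k) (vort u i j) z
        + ∑ k, (pd (ek i) (u k) z * vort u k j z + vort u i k z * pd (ek j) (u k) z)
        = ∑ k, pd (ek k) (pd (ek k) (vort u i j)) z := by
  have su : ∀ i, ContDiffOn ℝ ((3 : ℕ) : ℕ∞) (u i) O := fun i => by exact_mod_cast h.smooth_u i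
  have sp : ContDiffOn ℝ ((2 : ℕ) : ℕ∞) p O := by exact_mod_cast h.smooth_p
  have su2 : ∀ i, ContDiffOn ℝ ((2 : ℕ) : ℕ∞) (u i) O := fun i => (su i).of_le (by norm_cast)
  have u1 : ∀ i e, ContDiffOn ℝ ((2 : ℕ) : ℕ∞) (pd e (u i)) O := fun i e => pd_contDiffOn hO (su i) e
  have u2 : ∀ i e e', ContDiffOn ℝ ((1 : ℕ) : ℕ∞) (pd e (pd e' (u i))) O := fun i e e' =>
    pd_contDiffOn hO (u1 i e') e
  have p1 : ∀ e, ContDiffOn ℝ ((1 : ℕ) : ℕ∞) (pd e p) O := fun e => pd_contDiffOn hO sp e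
  have k : ∀ {F : E d → ℝ} {z : E d} (e : E d), DifferentiableAt ℝ F z → HasPd e F z (pd e F z) :=
    fun e hF => ⟨hF, rfl⟩
  refine ⟨(u1 j (ek i)).sub (u1 i (ek j)), ?_⟩
  have w1 : ∀ e, ∀ z ∈ O, pd e (vort u i j) z = pd e (pd (ek i) (u j)) z - pd e (pd (ek j) (u i)) z := by
    intro e z hz
    exact ((k e (diffAt hO (by norm_num) (u1 j (ek i)) hz)).sub
      (k e (diffAt hO (by norm_num) (u1 i (ek j)) hz))).2
  have w2 : ∀ e, ∀ z ∈ O, pd e (pd e (vort u i j)) z =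
      pd e (pd e (pd (ek i) (u j))) z - pd e (pd e (pd (ek j) (u i))) z := by
    intro e z hz
    rw [pd_congr hO (w1 e) hz e]
    exact ((k e (diffAt hO (by norm_num) (u2 j e (ek i)) hz)).sub
      (k e (diffAt hO (by norm_num) (u2 i e (ek j)) hz))).2
  intro z hz
  have du : ∀ i, DifferentiableAt ℝ (u i) z := fun i => diffAt hO (by norm_num) (su i) hz
  have du1 : ∀ i e, DifferentiableAt ℝ (pd e (u i)) z := fun i e => diffAt hO (by norm_num) (u1 i e) hz
  have du2 : ∀ i e e', DifferentiableAt ℝ (pd e (pd e' (u i))) z := fun i e e' =>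
    diffAt hO (by norm_num) (u2 i e e') hz
  have dp1 : ∀ e, DifferentiableAt ℝ (pd e p) z := fun e => diffAt hO (by norm_num) (p1 e) hz
  -- the equation for `u a`, differentiated in the direction `ek b`
  have e1 : ∀ a b : Fin d, pd (ek b) (pd et (u a)) z
      + ∑ k, (u k z * pd (ek b) (pd (ek k) (u a)) z + pd (ek k) (u a) z * pd (ek b) (u k) z)
      - ∑ k, pd (ek b) (pd (ek k) (pd (ek k) (u a))) z + pd (ek b) (pd (ek a) p) z = 0 := by
    intro a b
    have h0 : pd (ek b) (fun z => pd et (u a) z + ∑ k, u k z * pd (ek k) (u a) z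
        - ∑ k, pd (ek k) (pd (ek k) (u a)) z + pd (ek a) p z) z = 0 := by
      rw [pd_congr hO (G := fun _ => 0) (h.eq a) hz (ek b)]
      simp [pd]
    have f1 := (((k (ek b) (du1 a et)).add (HasPd.sum (s := Finset.univ)
      (F := fun k z => u k z * pd (ek k) (u a) z) fun l _ =>
        (k (ek b) (du l)).mul (k (ek b) (du1 a (ek l))))).sub (HasPd.sum (s := Finset.univ)
      (F := fun k z => pd (ek k) (pd (ek k) (u a)) z) fun l _ =>
        k (ek b) (du2 a (ek l) (ek l)))).add (k (ek b) (dp1 (ek a)))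
    rw [f1.2] at h0
    exact h0
  have E1 := e1 j i
  have E2 := e1 i j
  have c1 : ∀ a b : Fin d, pd et (pd (ek b) (u a)) z = pd (ek b) (pd et (u a)) z := fun a b =>
    pd_comm hO (su2 a) hz et (ek b)
  have c2 : ∀ a b l : Fin d, pd (ek l) (pd (ek b) (u a)) z = pd (ek b) (pd (ek l) (u a)) z := fun a b l =>
    pd_comm hO (su2 a) hz (ek l) (ek b)
  have c3 : ∀ a b l : Fin d, pd (ek l) (pd (ek l) (pd (ek b) (u a))) z =
      pd (ek b) (pd (ek l) (pd (ek l) (u a))) z := by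
    intro a b l
    have q1 : ∀ z ∈ O, pd (ek l) (pd (ek b) (u a)) z = pd (ek b) (pd (ek l) (u a)) z := fun z hz =>
      pd_comm hO (su2 a) hz (ek l) (ek b)
    rw [pd_congr hO q1 hz (ek l)]
    exact pd_comm hO (u1 a (ek l)) hz (ek l) (ek b)
  have c4 : pd (ek i) (pd (ek j) p) z = pd (ek j) (pd (ek i) p) z := pd_comm hO sp hz (ek i) (ek j)
  rw [w1 et z hz, c1, c1, Finset.sum_congr rfl fun l _ => by rw [w1 (ek l) z hz, c2 j i l, c2 i j l],
    Finset.sum_congr (s₁ := Finset.univ) (f := fun k => pd (ek k) (pd (ek k) (vort u i j)) z) rfl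
      fun l _ => by rw [w2 (ek l) z hz, c3 j i l, c3 i j l]]
  have hst : ∑ k, (pd (ek i) (u k) z * vort u k j z + vort u i k z * pd (ek j) (u k) z) =
      ∑ k, (pd (ek k) (u j) z * pd (ek i) (u k) z - pd (ek k) (u i) z * pd (ek j) (u k) z) := by
    refine Finset.sum_congr rfl fun l _ => ?_
    unfold vort
    ring
  rw [hst]
  simp only [Finset.sum_add_distrib, Finset.sum_sub_distrib, mul_sub] at E1 E2 ⊢
  linarith

end Pool.Agent.V5helper38.ID
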